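import Pool.Agent.Helper18.EW.Goals4
import Pool.Agent.Helper59.EW.SI
import Pool.Agent.Lead.ShMain

set_option autoImplicit false

/-! # Gluing along a line: independence (adding simple points) -/

namespace Pool.Agent.Helper65.EW

open Finset Pool.Agent.Lead.Sh
open Pool.Agent.Helper18.EW (triZ GLc GoalGLd)
open Pool.Agent.Helper59.EW (LI nonvanish E_zero indAt_iff)

/-- one more simple point at a given new index -/
lemma add_one_at (D : Finset (ℕ × ℕ)) (m : ℕ → ℕ) (s : Finset ℕ) (h : Ind D (rows m s))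
    (hlt : (rows m s).card < D.card) (k : ℕ) (hk : k ∉ s) :
    Ind D (rows (Function.update m k 1) (insert k s)) ∧
      (rows (Function.update m k 1) (insert k s)).card = (rows m s).card + 1 := by
  classical
  obtain ⟨P, hP⟩ := h
  -- the kernel vector
  obtain ⟨c, ⟨d0, hd0, hcd0⟩, hc⟩ : ∃ c : ℕ × ℕ → ℂ, (∃ d ∈ D, c d ≠ 0) ∧
      ∀ r ∈ rows m s, ∑ d ∈ D, c d * E r.2 d (P r.1).1 (P r.1).2 = 0 := by
    by_contra hcon
    push Not at hcon
    have hLI : LI D (rows m s) (fun d r => E r.2 d (P r.1).1 (P r.1).2) := by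
      intro l hl d hd
      by_contra hne
      obtain ⟨r, hr, hr'⟩ := hcon l ⟨d, hd, hne⟩
      exact hr' (hl r hr)
    exact absurd hLI.card_le (not_le.2 hlt)
  obtain ⟨x0, y0, hxy⟩ := nonvanish D c d0 hd0 hcd0
  set m' : ℕ → ℕ := Function.update m k 1 with hm'
  set P' : ℕ → ℂ × ℂ := Function.update P k (x0, y0) with hP'
  have hm'k : m' k = 1 := by rw [hm', Function.update_self]
  have hm's : ∀ j ∈ s, m' j = m j := by
    intro j hj
    rw [hm', Function.update_of_ne]
    rintro rfl
    exact hk hj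
  have hrows : rows m' (insert k s) = insert (k, (0, 0)) (rows m s) := by
    ext r
    rw [mem_insert, mem_rows, mem_rows, mem_insert]
    constructor
    · rintro ⟨h1 | h1, h2⟩
      · left
        rw [h1, hm'k] at h2
        refine Prod.ext h1 (Prod.ext ?_ ?_)
        · change r.2.1 = 0; omega
        · change r.2.2 = 0; omega
      · right
        exact ⟨h1, by rw [← hm's _ h1]; exact h2⟩
    · rintro (h1 | ⟨h1, h2⟩)
      · rw [h1]
        exact ⟨Or.inl rfl, by simp [hm'k]⟩
      · exact ⟨Or.inr h1, by rw [hm's _ h1]; exact h2⟩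
  have hnot : (k, ((0 : ℕ), (0 : ℕ))) ∉ rows m s := by
    rw [mem_rows]
    rintro ⟨h1, _⟩
    exact hk h1
  refine ⟨⟨P', ?_⟩, ?_⟩
  · intro l hl
    rw [hrows] at hl ⊢
    have hPr : ∀ r ∈ rows m s, P' r.1 = P r.1 := by
      intro r hr
      rw [hP', Function.update_of_ne]
      intro h
      rw [mem_rows] at hr
      rw [h] at hr
      exact hk hr.1
    have hPk : P' k = (x0, y0) := by rw [hP', Function.update_self]
    have hl' : ∀ d ∈ D, l (k, (0, 0)) * (x0 ^ d.1 * y0 ^ d.2) +
        ∑ r ∈ rows m s, l r * E r.2 d (P r.1).1 (P r.1).2 = 0 := by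
      intro d hd
      have h1 := hl d hd
      rw [sum_insert hnot] at h1
      rw [← h1]
      congr 1
      · simp only [hPk]
        rw [E_zero]
      · apply sum_congr rfl
        intro r hr
        rw [hPr r hr]
    have hl0 : l (k, (0, 0)) = 0 := by
      have h2 : ∑ d ∈ D, c d * (l (k, (0, 0)) * (x0 ^ d.1 * y0 ^ d.2) +
          ∑ r ∈ rows m s, l r * E r.2 d (P r.1).1 (P r.1).2) = 0 := by
        apply sum_eq_zero
        intro d hd
        rw [hl' d hd, mul_zero]
      have h3 : ∑ d ∈ D, c d * (l (k, (0, 0)) * (x0 ^ d.1 * y0 ^ d.2) +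
          ∑ r ∈ rows m s, l r * E r.2 d (P r.1).1 (P r.1).2) =
          l (k, (0, 0)) * ∑ d ∈ D, c d * (x0 ^ d.1 * y0 ^ d.2) +
          ∑ r ∈ rows m s, l r * ∑ d ∈ D, c d * E r.2 d (P r.1).1 (P r.1).2 := by
        simp_rw [mul_add, sum_add_distrib, mul_sum]
        congr 1
        · apply sum_congr rfl
          intro d _
          ring
        · rw [sum_comm]
          apply sum_congr rfl
          intro r _
          apply sum_congr rfl
          intro d _
          ring
      rw [h3] at h2
      rw [sum_eq_zero (s := rows m s) (fun r hr => by rw [hc r hr, mul_zero]), add_zero] at h2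
      rcases mul_eq_zero.1 h2 with h4 | h4
      · exact h4
      · exact absurd h4 hxy
    intro r hr
    rcases mem_insert.1 hr with h5 | h5
    · rw [h5]; exact hl0
    · refine hP l ?_ r h5
      intro d hd
      have h6 := hl' d hd
      rw [hl0, zero_mul, zero_add] at h6
      exact h6
  · rw [hrows, card_insert_of_notMem hnot]

/-- several new simple points with indices outside `F` -/
lemma add_many (n : ℕ) : ∀ (D : Finset (ℕ × ℕ)) (m : ℕ → ℕ) (s F : Finset ℕ), Ind D (rows m s) →
    (rows m s).card + n ≤ D.card → ∃ (m' : ℕ → ℕ) (s' : Finset ℕ), s ⊆ s' ∧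
      (∀ k ∈ s ∪ F, m' k = m k) ∧ (∀ k ∈ s', k ∈ F → k ∈ s) ∧ Ind D (rows m' s') ∧
      (rows m' s').card = (rows m s).card + n := by
  induction n with
  | zero =>
    intro D m s F h _
    exact ⟨m, s, subset_rfl, fun _ _ => rfl, fun k hk _ => hk, h, rfl⟩
  | succ n ih =>
    intro D m s F h hc
    obtain ⟨k, hk⟩ : ∃ k, k ∉ s ∪ F := Infinite.exists_notMem_finset _
    have hks : k ∉ s := fun h' => hk (mem_union_left _ h')
    have hkF : k ∉ F := fun h' => hk (mem_union_right _ h')
    obtain ⟨h1, h2⟩ := add_one_at D m s h (by omega) k hks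
    obtain ⟨m2, s2, k1, k2, k3, k4, k5⟩ := ih D (Function.update m k 1) (insert k s) F h1
      (by rw [h2]; omega)
    refine ⟨m2, s2, (subset_insert _ _).trans k1, ?_, ?_, k4, by rw [k5, h2]; omega⟩
    · intro j hj
      have hjk : j ≠ k := by
        rintro rfl
        exact hk hj
      rw [k2 j ?_, Function.update_of_ne hjk]
      rcases mem_union.1 hj with h' | h'
      · exact mem_union_left _ (mem_insert_of_mem h')
      · exact mem_union_right _ h'
    · intro j hj hjF
      rcases mem_insert.1 (k3 j hj hjF) with h' | h'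
      · rw [h'] at hjF
        exact absurd hjF hkF
      · exact h'

lemma rows_eq {m m' : ℕ → ℕ} {s : Finset ℕ} (h : ∀ k ∈ s, m' k = m k) : rows m' s = rows m s := by
  ext r
  rw [mem_rows, mem_rows]
  constructor
  · rintro ⟨h1, h2⟩
    exact ⟨h1, by rw [← h _ h1]; exact h2⟩
  · rintro ⟨h1, h2⟩
    exact ⟨h1, by rw [h _ h1]; exact h2⟩

/-- the number of cells of a triangle and of the trapezoid over it -/
lemma card_tri_le {d e : ℕ} (he : e < d) :
    (triD 0 d).card ≤ (triD 0 e).card + (triZ d (d - e + 1)).card := by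
  classical
  have h1 : (triD 0 d).card = ((triD 0 d).filter (fun x => x.2 < d - e + 1)).card +
      ((triD 0 d).filter (fun x => ¬ x.2 < d - e + 1)).card :=
    (card_filter_add_card_filter_not (s := triD 0 d) (fun x => x.2 < d - e + 1)).symm
  have h2 : ((triD 0 d).filter (fun x => ¬ x.2 < d - e + 1)).card ≤ (triD 0 e).card := by
    refine card_le_card_of_injOn (fun x => (x.1, x.2 - (d - e + 1))) ?_ ?_
    · intro x hx
      have hx' := mem_filter.1 (mem_coe.1 hx)
      obtain ⟨a1, a2⟩ := hx'
      rw [mem_triD] at a1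
      rw [mem_coe, mem_triD]
      constructor
      · exact Nat.zero_le _
      · have := a1.2
        show x.1 + (x.2 - (d - e + 1)) ≤ e
        omega
    · intro x hx y hy hxy
      have hx' := (mem_filter.1 (mem_coe.1 hx)).2
      have hy' := (mem_filter.1 (mem_coe.1 hy)).2
      have q1 : x.1 = y.1 := (Prod.ext_iff.1 hxy).1
      have q2 : x.2 - (d - e + 1) = y.2 - (d - e + 1) := (Prod.ext_iff.1 hxy).2
      exact Prod.ext q1 (by omega)
  have h3 : (triZ d (d - e + 1)).card = ((triD 0 d).filter (fun x => x.2 < d - e + 1)).card := rfl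
  omega

lemma card_rows_disj (m : ℕ → ℕ) {s t : Finset ℕ} (h : Disjoint s t) :
    (rows m (s ∪ t)).card = (rows m s).card + (rows m t).card := by
  rw [card_rows, card_rows, card_rows, sum_union h]

theorem goalGLd : GoalGLd := by
  intro hGL m d e s t he hed hst hI1 hJ1 hI2 hJ2 hcard
  have c0 := card_tri_le hed
  have c1 := card_rows_disj m hst
  have w1 : (rows m s).card ≤ (triD 0 e).card := by
    obtain ⟨P, hP⟩ := hI1
    exact LI.card_le ((indAt_iff _ _ P).1 hP)
  have w2 : (rows m t).card ≤ (triZ d (d - e + 1)).card := by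
    obtain ⟨P, hP⟩ := hI2
    exact LI.card_le ((indAt_iff _ _ P).1 hP)
  obtain ⟨a, b, ha, hb, hab⟩ : ∃ a b : ℕ, (rows m s).card + a ≤ (triD 0 e).card ∧
      (rows m t).card + b ≤ (triZ d (d - e + 1)).card ∧
      (rows m s).card + a + ((rows m t).card + b) = (triD 0 d).card := by
    rcases Nat.le_total ((triD 0 d).card - (rows m (s ∪ t)).card)
      ((triD 0 e).card - (rows m s).card) with h | h
    · exact ⟨(triD 0 d).card - (rows m (s ∪ t)).card, 0, by omega, by omega, by omega⟩
    · exact ⟨(triD 0 e).card - (rows m s).card, (triD 0 d).card - (rows m (s ∪ t)).card -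
        ((triD 0 e).card - (rows m s).card), by omega, by omega, by omega⟩
  obtain ⟨m1, s1, p1, p2, p3, p4, p5⟩ := add_many a (triD 0 e) m s t hI1 ha
  have et1 : rows m1 t = rows m t := rows_eq fun k hk => p2 k (mem_union_right _ hk)
  have es1 : rows m1 s = rows m s := rows_eq fun k hk => p2 k (mem_union_left _ hk)
  have hs1t : ∀ k ∈ s1, k ∉ t := by
    intro k hk hkt
    exact disjoint_left.1 hst (p3 k hk hkt) hkt
  obtain ⟨m2, t2, q1, q2, q3, q4, q5⟩ := add_many b (triZ d (d - e + 1)) m1 t s1
    (by rw [et1]; exact hI2) (by rw [et1]; exact hb)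
  have es2 : rows m2 s1 = rows m1 s1 := rows_eq fun k hk => q2 k (mem_union_right _ hk)
  have et2 : rows m2 t = rows m1 t := rows_eq fun k hk => q2 k (mem_union_left _ hk)
  have hdis : Disjoint s1 t2 := by
    rw [disjoint_left]
    intro k hk hk2
    exact hs1t k hk (q3 k hk2 hk)
  have g1 : rows m s ⊆ rows m2 s1 := by
    rw [es2, ← es1]; exact rows_mono p1
  have g2 : rows m t ⊆ rows m2 t2 := by
    rw [← et1, ← et2]; exact rows_mono q1
  have hc2 : (rows m2 (s1 ∪ t2)).card = (triD 0 d).card := by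
    rw [card_rows_disj m2 hdis, es2, p5, q5, et1]
    exact hab
  have hInj : Inj (triD 0 d) (rows m2 (s1 ∪ t2)) :=
    hGL m2 d e s1 t2 he hed hdis (by rw [es2]; exact p4) (hJ1.mono subset_rfl g1) q4
      (hJ2.mono subset_rfl g2) hc2.ge
  obtain ⟨P, hP⟩ := hInj
  have hInd : Ind (triD 0 d) (rows m2 (s1 ∪ t2)) := ⟨P, hP.ind hc2⟩
  refine hInd.mono subset_rfl ?_
  rw [rows_union, rows_union]
  exact union_subset_union g1 g2

end Pool.Agent.Helper65.EW
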