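import Pool.Agent.Helper18.EW.Goals3

set_option autoImplicit false

/-! # The choice of the last rows (numbers only) -/

namespace Pool.Agent.Helper65.EW

open Pool.Agent.Helper18.EW

lemma h_mono {X u w : ℕ} (h : u ≤ w) : u ^ 2 * (X + u) ≤ w ^ 2 * (X + w) :=
  Nat.mul_le_mul (Nat.pow_le_pow_left h 2) (by omega)

lemma a_mono {X u w : ℕ} (h : u ≤ w) : u * (X + u) ≤ w * (X + w) :=
  Nat.mul_le_mul h (by omega)

lemma sq_aux (s : ℕ) : (s + 2) ^ 2 ≤ 2 * s ^ 2 + 8 := by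
  zify
  nlinarith [sq_nonneg ((s : ℤ) - 2)]

/-- choice of `q`, `v` -/
lemma qv_exists {X Lg w : ℕ} (hX : 320 ≤ X) (hLg : 1 ≤ Lg) (hw : X / 2 ^ Lg + 2 ≤ w) :
    ∃ q v : ℕ, q + 1 ≤ Lg ∧ 1 ≤ v ∧ 320 * (2 ^ q * v) ≤ X ∧ X ≤ 640 * (2 ^ q * v) ∧ v < w := by
  rcases Nat.lt_or_ge (320 * (w - 1)) X with h | h
  · -- the second case
    set v := w - 1 with hv
    have hv1 : 1 ≤ v := by
      have := Nat.zero_le (X / 2 ^ Lg)
      generalize X / 2 ^ Lg = y at *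
      omega
    have hpos : 0 < 320 * v := by omega
    have hdiv : X / (320 * v) ≠ 0 := by
      have : 1 ≤ X / (320 * v) := (Nat.one_le_div_iff hpos).2 h.le
      omega
    set q := Nat.log 2 (X / (320 * v)) with hq
    have h1 : 2 ^ q ≤ X / (320 * v) := Nat.pow_log_le_self 2 hdiv
    have h2 : X / (320 * v) < 2 ^ (q + 1) := Nat.lt_pow_succ_log_self (by norm_num) _
    have h3 : 2 ^ q * (320 * v) ≤ X := (Nat.le_div_iff_mul_le hpos).1 h1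
    have h4 : X < 2 ^ (q + 1) * (320 * v) := (Nat.div_lt_iff_lt_mul hpos).1 h2
    have h5 : X < 2 ^ Lg * v := by
      have h6 : X < 2 ^ Lg * (X / 2 ^ Lg + 1) := by
        have := Nat.lt_mul_div_succ X (show 0 < 2 ^ Lg by positivity)
        simpa using this
      have h7 : 2 ^ Lg * (X / 2 ^ Lg + 1) ≤ 2 ^ Lg * v := Nat.mul_le_mul_left _ (by
        generalize X / 2 ^ Lg = y at *
        omega)
      exact lt_of_lt_of_le h6 h7
    refine ⟨q, v, ?_, hv1, ?_, ?_, by omega⟩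
    · have h6 : 2 ^ (q + 1) < 2 ^ Lg := by
        have h7 : 2 ^ (q + 1) * v < 2 ^ Lg * v := by
          have : 2 ^ (q + 1) * v ≤ 2 ^ q * (320 * v) := by
            rw [pow_succ]
            nlinarith [Nat.zero_le (2 ^ q * v)]
          exact lt_of_le_of_lt (this.trans h3) h5
        exact lt_of_mul_lt_mul_right h7 (Nat.zero_le _)
      exact ((Nat.pow_lt_pow_iff_right (by norm_num)).1 h6).le
    · calc 320 * (2 ^ q * v) = 2 ^ q * (320 * v) := by ring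
        _ ≤ X := h3
    · calc X ≤ 2 ^ (q + 1) * (320 * v) := h4.le
        _ = 640 * (2 ^ q * v) := by rw [pow_succ]; ring
  · refine ⟨0, X / 320, hLg, ?_, ?_, ?_, ?_⟩ <;> omega

theorem goalNB : GoalNB := by
  intro m l b Lg W hl hLg hb hm1 hm2 hW hlW hbW
  set X := b * l with hX
  have hLg2 : 1 ≤ Lg ^ 2 := Nat.one_le_pow _ _ hLg
  have hb40 : 2 ^ 40 ≤ b := le_trans (by nlinarith) hb
  have hXb : b ≤ X := by rw [hX]; exact Nat.le_mul_of_pos_right _ hl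
  have hXl : 2 ^ 40 * l ≤ X := by rw [hX]; exact Nat.mul_le_mul_right _ hb40
  have hXm : 2 ^ 31 * X ≤ m := by
    calc 2 ^ 31 * X ≤ 2 ^ 31 * X * Lg ^ 2 := Nat.le_mul_of_pos_right _ hLg2
      _ = 2 ^ 31 * b * Lg ^ 2 * l := by rw [hX]; ring
      _ ≤ m := hm1
  have hml : 2 ^ 71 * l ≤ m := by
    calc 2 ^ 71 * l = 2 ^ 31 * (2 ^ 40 * l) := by ring
      _ ≤ 2 ^ 31 * X := Nat.mul_le_mul_left _ hXl
      _ ≤ m := hXm
  have hm71 : 2 ^ 71 ≤ m := le_trans (by omega) hml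
  have hmX : m ≤ 2 ^ 32 * Lg ^ 2 * X := by
    calc m ≤ 2 ^ 32 * Lg ^ 2 * l * b := hm2
      _ = 2 ^ 32 * Lg ^ 2 * X := by rw [hX]; ring
  have hX40 : 2 ^ 40 ≤ X := hb40.trans hXb
  -- the eighth of m
  set t := m / 8 with ht
  have ht9 : m ≤ 9 * t := by omega
  have ht8 : 8 * t ≤ m := by omega
  -- w1
  have e1 : ∃ w, 2 ^ 14 * l * W ≤ w ^ 2 * (X + w) := by
    refine ⟨t, ?_⟩
    have h1 : 2 ^ 14 * l * W ≤ 2 ^ 14 * l * (3 * m ^ 2) := Nat.mul_le_mul_left _ hW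
    have h2 : 729 * (2 ^ 14 * l * (3 * m ^ 2)) ≤ m * m ^ 2 := by
      calc 729 * (2 ^ 14 * l * (3 * m ^ 2)) = (729 * 3 * 2 ^ 14 * l) * m ^ 2 := by ring
        _ ≤ m * m ^ 2 := Nat.mul_le_mul_right _ (le_trans (Nat.mul_le_mul_right _ (by norm_num)) hml)
    have h3 : m * m ^ 2 ≤ 729 * (t ^ 2 * t) := by
      calc m * m ^ 2 ≤ (9 * t) * (9 * t) ^ 2 :=
            Nat.mul_le_mul ht9 (Nat.pow_le_pow_left ht9 2)
        _ = 729 * (t ^ 2 * t) := by ring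
    have h4 : t ^ 2 * t ≤ t ^ 2 * (X + t) := Nat.mul_le_mul_left _ (by omega)
    have h5 : 2 ^ 14 * l * (3 * m ^ 2) ≤ t ^ 2 * t := by
      have := h2.trans h3
      exact Nat.le_of_mul_le_mul_left this (by norm_num)
    exact h1.trans (h5.trans h4)
  have e1t : 2 ^ 14 * l * W ≤ t ^ 2 * (X + t) := by
    have h1 : 2 ^ 14 * l * W ≤ 2 ^ 14 * l * (3 * m ^ 2) := Nat.mul_le_mul_left _ hW
    have h2 : 729 * (2 ^ 14 * l * (3 * m ^ 2)) ≤ m * m ^ 2 := by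
      calc 729 * (2 ^ 14 * l * (3 * m ^ 2)) = (729 * 3 * 2 ^ 14 * l) * m ^ 2 := by ring
        _ ≤ m * m ^ 2 := Nat.mul_le_mul_right _ (le_trans (Nat.mul_le_mul_right _ (by norm_num)) hml)
    have h3 : m * m ^ 2 ≤ 729 * (t ^ 2 * t) := by
      calc m * m ^ 2 ≤ (9 * t) * (9 * t) ^ 2 :=
            Nat.mul_le_mul ht9 (Nat.pow_le_pow_left ht9 2)
        _ = 729 * (t ^ 2 * t) := by ring
    have h4 : t ^ 2 * t ≤ t ^ 2 * (X + t) := Nat.mul_le_mul_left _ (by omega)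
    have h5 : 2 ^ 14 * l * (3 * m ^ 2) ≤ t ^ 2 * t := by
      have := h2.trans h3
      exact Nat.le_of_mul_le_mul_left this (by norm_num)
    exact h1.trans (h5.trans h4)
  have eAt : 2 ^ 24 * m ≤ t * (X + t) := by
    have h1 : 81 * (2 ^ 24 * m) ≤ m * m := by
      calc 81 * (2 ^ 24 * m) = (81 * 2 ^ 24) * m := by ring
        _ ≤ m * m := Nat.mul_le_mul_right _ (le_trans (by norm_num) hm71)
    have h2 : m * m ≤ 81 * (t * t) := by
      calc m * m ≤ (9 * t) * (9 * t) := Nat.mul_le_mul ht9 ht9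
        _ = 81 * (t * t) := by ring
    have h3 : 2 ^ 24 * m ≤ t * t := Nat.le_of_mul_le_mul_left (h1.trans h2) (by norm_num)
    exact h3.trans (Nat.mul_le_mul_left _ (by omega))
  have eA : ∃ w, 2 ^ 24 * m ≤ w * (X + w) := ⟨t, eAt⟩
  obtain ⟨w1, hw1, hw1m, hw1t⟩ : ∃ w, 2 ^ 14 * l * W ≤ w ^ 2 * (X + w) ∧
      (∀ u, u < w → u ^ 2 * (X + u) < 2 ^ 14 * l * W) ∧ w ≤ t :=
    ⟨Nat.find e1, Nat.find_spec e1, fun u hu => not_le.1 (Nat.find_min e1 hu),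
      Nat.find_min' e1 e1t⟩
  obtain ⟨wA, hwA, hwAm, hwAt⟩ : ∃ w, 2 ^ 24 * m ≤ w * (X + w) ∧
      (∀ u, u < w → u * (X + u) < 2 ^ 24 * m) ∧ w ≤ t :=
    ⟨Nat.find eA, Nat.find_spec eA, fun u hu => not_le.1 (Nat.find_min eA hu),
      Nat.find_min' eA eAt⟩
  set P := 2 ^ Lg with hP
  have hP2 : 2 ≤ P := by
    rw [hP]
    calc 2 = 2 ^ 1 := by norm_num
      _ ≤ 2 ^ Lg := Nat.pow_le_pow_right (by norm_num) hLg
  have hP4 : 4 ^ Lg = P ^ 2 := by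
    rw [hP, ← pow_mul, mul_comm, pow_mul]; norm_num
  have hXP : X / P ≤ X / 2 := Nat.div_le_div_left hP2 (by norm_num)
  have hXP2 : P * (X / P) ≤ X := Nat.mul_div_le X P
  obtain ⟨w, hw, hcase⟩ : ∃ w, (w1 ≤ w ∧ wA ≤ w ∧ X / P + 2 ≤ w) ∧
      (w = w1 ∨ w = wA ∨ w = X / P + 2) := by
    refine ⟨max w1 (max wA (X / P + 2)), ⟨le_max_left _ _, (le_max_left _ _).trans (le_max_right _ _),
      (le_max_right _ _).trans (le_max_right _ _)⟩, ?_⟩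
    rcases max_choice w1 (max wA (X / P + 2)) with h | h
    · exact Or.inl h
    · rcases max_choice wA (X / P + 2) with h' | h'
      · right; left; rw [h, h']
      · right; right; rw [h, h']
  obtain ⟨g1, gA, gB⟩ := hw
  obtain ⟨q, v, k1, k2, k3, k4, k5⟩ := qv_exists (X := X) (Lg := Lg) (w := w)
    (le_trans (by norm_num) hX40) hLg gB
  have hw2 : 2 ≤ w := by omega
  have c1 : 2 ^ 24 * m ≤ w * (X + w) := hwA.trans (a_mono gA)
  have c2 : 2 ^ 14 * l * W ≤ w ^ 2 * (X + w) := hw1.trans (h_mono g1)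
  refine ⟨q, v, w, k1, k2, k3, k4, k5, ?_, c1, c2, ?_⟩
  · rcases hcase with h | h | h <;> omega
  obtain ⟨u, hu⟩ : ∃ u, w = u + 1 := ⟨w - 1, by omega⟩
  have hu1 : 1 ≤ u := by omega
  rcases hcase with h | h | h
  · -- w = w1
    have d1 : u ^ 2 * (X + u) < 2 ^ 14 * l * W := hw1m u (by omega)
    have d2 : w ^ 2 * (X + w) ≤ 8 * (u ^ 2 * (X + u)) := by
      have a1 : w ^ 2 ≤ 4 * u ^ 2 := by
        calc w ^ 2 ≤ (2 * u) ^ 2 := Nat.pow_le_pow_left (by omega) 2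
          _ = 4 * u ^ 2 := by ring
      calc w ^ 2 * (X + w) ≤ (4 * u ^ 2) * (2 * (X + u)) := Nat.mul_le_mul a1 (by omega)
        _ = 8 * (u ^ 2 * (X + u)) := by ring
    have d3 : w * (2 ^ 25 * m + X * w) ≤ 3 * (w ^ 2 * (X + w)) := by
      have a1 : w * (2 ^ 25 * m) ≤ 2 * (w ^ 2 * (X + w)) := by
        calc w * (2 ^ 25 * m) = 2 * (w * (2 ^ 24 * m)) := by ring
          _ ≤ 2 * (w * (w * (X + w))) := Nat.mul_le_mul_left _ (Nat.mul_le_mul_left _ c1)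
          _ = 2 * (w ^ 2 * (X + w)) := by ring
      have a2 : w * (X * w) ≤ w ^ 2 * (X + w) := by
        calc w * (X * w) = w ^ 2 * X := by ring
          _ ≤ w ^ 2 * (X + w) := Nat.mul_le_mul_left _ (by omega)
      calc w * (2 ^ 25 * m + X * w) = w * (2 ^ 25 * m) + w * (X * w) := by ring
        _ ≤ 3 * (w ^ 2 * (X + w)) := by omega
    have d4 : 2 ^ 20 * l * W = 64 * (2 ^ 14 * l * W) := by ring
    rw [d4]
    generalize 2 ^ 14 * l * W = Y at *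
    generalize w ^ 2 * (X + w) = Z at *
    generalize u ^ 2 * (X + u) = Z' at *
    omega
  · -- w = wA
    have d1 : u * (X + u) < 2 ^ 24 * m := hwAm u (by omega)
    have d2 : w * (X + w) ≤ 2 ^ 26 * m := by
      calc w * (X + w) ≤ (2 * u) * (2 * (X + u)) := Nat.mul_le_mul (by omega) (by omega)
        _ = 4 * (u * (X + u)) := by ring
        _ ≤ 4 * (2 ^ 24 * m) := Nat.mul_le_mul_left _ d1.le
        _ = 2 ^ 26 * m := by ring
    have d3 : w * X ≤ 2 ^ 26 * m := le_trans (Nat.mul_le_mul_left _ (by omega)) d2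
    have d4 : w ≤ 2 ^ 58 * Lg ^ 2 := by
      have a1 : w * X ≤ 2 ^ 58 * Lg ^ 2 * X := by
        calc w * X ≤ 2 ^ 26 * m := d3
          _ ≤ 2 ^ 26 * (2 ^ 32 * Lg ^ 2 * X) := Nat.mul_le_mul_left _ hmX
          _ = 2 ^ 58 * Lg ^ 2 * X := by ring
      exact Nat.le_of_mul_le_mul_right a1 (lt_of_lt_of_le (by norm_num) hX40)
    calc w * (2 ^ 25 * m + X * w) ≤ w * (2 ^ 25 * m + 2 ^ 26 * m) :=
          Nat.mul_le_mul_left _ (by rw [mul_comm X w]; omega)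
      _ ≤ w * (2 ^ 27 * m) := Nat.mul_le_mul_left _ (by omega)
      _ ≤ (2 ^ 58 * Lg ^ 2) * (2 ^ 27 * m) := Nat.mul_le_mul_right _ d4
      _ = 2 ^ 20 * (2 ^ 65 * Lg ^ 2 * m) := by ring
      _ ≤ 2 ^ 20 * (l * W) := Nat.mul_le_mul_left _ hlW
      _ = 2 ^ 20 * l * W := by ring
  · -- w = wB
    have hwX : w ≤ X := by omega
    have d1 : w * (2 ^ 25 * m + X * w) ≤ 5 * (w ^ 2 * X) := by
      have a1 : 2 ^ 24 * m ≤ w * (2 * X) := c1.trans (Nat.mul_le_mul_left _ (by omega))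
      calc w * (2 ^ 25 * m + X * w) = 2 * (w * (2 ^ 24 * m)) + w ^ 2 * X := by ring
        _ ≤ 2 * (w * (w * (2 * X))) + w ^ 2 * X :=
          Nat.add_le_add_right (Nat.mul_le_mul_left _ (Nat.mul_le_mul_left _ a1)) _
        _ = 5 * (w ^ 2 * X) := by ring
    have d2 : w ^ 2 * P ^ 2 ≤ 2 * X ^ 2 + 8 * P ^ 2 := by
      have a1 : w ^ 2 ≤ 2 * (X / P) ^ 2 + 8 := by
        rw [h]; exact sq_aux _
      have a2 : (X / P) ^ 2 * P ^ 2 ≤ X ^ 2 := by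
        calc (X / P) ^ 2 * P ^ 2 = (P * (X / P)) ^ 2 := by ring
          _ ≤ X ^ 2 := Nat.pow_le_pow_left hXP2 2
      calc w ^ 2 * P ^ 2 ≤ (2 * (X / P) ^ 2 + 8) * P ^ 2 := Nat.mul_le_mul_right _ a1
        _ = 2 * ((X / P) ^ 2 * P ^ 2) + 8 * P ^ 2 := by ring
        _ ≤ 2 * X ^ 2 + 8 * P ^ 2 := by omega
    have d3 : X * X ^ 2 + X * P ^ 2 ≤ l * W * P ^ 2 := by
      have a1 : l * (b * X ^ 2 + b * 4 ^ Lg) ≤ l * (W * 4 ^ Lg) := Nat.mul_le_mul_left _ hbW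
      calc X * X ^ 2 + X * P ^ 2 = l * (b * X ^ 2 + b * 4 ^ Lg) := by rw [hP4, hX]; ring
        _ ≤ l * (W * 4 ^ Lg) := a1
        _ = l * W * P ^ 2 := by rw [hP4]; ring
    have hPpos : 0 < P ^ 2 := by positivity
    refine Nat.le_of_mul_le_mul_right ?_ hPpos
    calc w * (2 ^ 25 * m + X * w) * P ^ 2 ≤ 5 * (w ^ 2 * X) * P ^ 2 := Nat.mul_le_mul_right _ d1
      _ = 5 * X * (w ^ 2 * P ^ 2) := by ring
      _ ≤ 5 * X * (2 * X ^ 2 + 8 * P ^ 2) := Nat.mul_le_mul_left _ d2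
      _ = 10 * (X * X ^ 2) + 40 * (X * P ^ 2) := by ring
      _ ≤ 40 * (X * X ^ 2 + X * P ^ 2) := by omega
      _ ≤ 40 * (l * W * P ^ 2) := Nat.mul_le_mul_left _ d3
      _ ≤ 2 ^ 20 * (l * W * P ^ 2) := Nat.mul_le_mul_right _ (by norm_num)
      _ = 2 ^ 20 * l * W * P ^ 2 := by ring

end Pool.Agent.Helper65.EW
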